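import Pool.Agent.Rl45.Final
import Pool.Agent.V3R.Exact
import Pool.Agent.FZ86.All

/-!
MP_884cd1_co (disjoint transversals in row-Latin rectangles): the statement of Q1, with its number
`m - (n - 1)` of disjoint transversals, holds for all `n ≥ 1`, all `k` and all
`m > n (n - 1) (3 n + 1)`, and also for all `n ≥ 1`, all `k` and all
`m > 2 ^ 29 n ^ 2 (Nat.log 2 n + 1) ^ 2`; for `k ≤ n + 1` it holds already for all
`m > n (n - 1) (n + 1)` and for all `m > 131520 n ^ 2 (Nat.log 2 n + 1) ^ 2`.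
-/

namespace Pool.Agent.Results.MP_884cd1_co.CubicRows

open Finset

/-- `A` is an `m × n` row-Latin rectangle based on `k`: an `m × n` matrix with entries among `k`
symbols in which no symbol occurs twice within the same row. -/
def IsRowLatin {m n k : ℕ} (A : Fin m → Fin n → Fin k) : Prop :=
  ∀ i, ∀ j j', A i j = A i j' → j = j'

/-- `C` is a transversal of the `m × n` matrix `A`: a set of `n` cells, no two in the same row, no
two in the same column, no two with the same symbol. -/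
def IsTransversal {m n k : ℕ} (A : Fin m → Fin n → Fin k) (C : Finset (Fin m × Fin n)) : Prop :=
  C.card = n ∧ (∀ c ∈ C, ∀ c' ∈ C, c.1 = c'.1 → c = c') ∧
    (∀ c ∈ C, ∀ c' ∈ C, c.2 = c'.2 → c = c') ∧
    (∀ c ∈ C, ∀ c' ∈ C, A c.1 c.2 = A c'.1 c'.2 → c = c')

/-- From row functions to sets of cells. -/
theorem of_fun {m n k N : ℕ} (A : Fin m → Fin n → Fin k) (t : Fin N → Fin n → Fin m)
    (h1 : ∀ s, Function.Injective (t s)) (h2 : ∀ s, Function.Injective (fun j => A (t s j) j))
    (h3 : ∀ j, Function.Injective (fun s => t s j)) :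
    ∃ T : Fin N → Finset (Fin m × Fin n),
      (∀ s, IsTransversal A (T s)) ∧ ∀ s s', s ≠ s' → Disjoint (T s) (T s') := by
  classical
  have hmem : ∀ s c, c ∈ (univ.image (fun j => (t s j, j)) : Finset (Fin m × Fin n)) ↔
      t s c.2 = c.1 := by
    intro s c
    simp only [Finset.mem_image, Finset.mem_univ, true_and]
    constructor
    · rintro ⟨j, rfl⟩
      rfl
    · intro h
      exact ⟨c.2, Prod.ext h rfl⟩
  refine ⟨fun s => univ.image (fun j => (t s j, j)), ?_, ?_⟩
  · intro s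
    refine ⟨?_, ?_, ?_, ?_⟩
    · rw [Finset.card_image_of_injective _ (fun j j' h => congrArg Prod.snd h), Finset.card_univ,
        Fintype.card_fin]
    · intro c hc c' hc' h
      rw [hmem] at hc hc'
      exact Prod.ext h (h1 s (by rw [hc, hc', h]))
    · intro c hc c' hc' h
      rw [hmem] at hc hc'
      exact Prod.ext (by rw [← hc, ← hc', h]) h
    · intro c hc c' hc' h
      rw [hmem] at hc hc'
      have h4 : c.2 = c'.2 := by
        apply h2 s
        change A (t s c.2) c.2 = A (t s c'.2) c'.2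
        rw [hc, hc', h]
      exact Prod.ext (by rw [← hc, ← hc', h4]) h4
  · intro s s' hss'
    rw [Finset.disjoint_left]
    intro c hc hc'
    rw [hmem] at hc hc'
    apply hss'
    apply h3 c.2
    change t s c.2 = t s' c.2
    rw [hc, hc']

/-- Let `n ≥ 1` and let `m > n (n - 1) (3 n + 1)`, or let `m > 2 ^ 29 n ^ 2 (Nat.log 2 n + 1) ^ 2`,
or let `k ≤ n + 1` and `m > n (n - 1) (n + 1)`, or let `k ≤ n + 1` and
`m > 131520 n ^ 2 (Nat.log 2 n + 1) ^ 2`. Then every `m × n` row-Latin rectangle based on `k` has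
`m - (n - 1)` pairwise disjoint transversals. -/
theorem result (m n k : ℕ) (hn : 1 ≤ n)
    (hm : n * (n - 1) * (3 * n + 1) < m ∨ 2 ^ 29 * n ^ 2 * (Nat.log 2 n + 1) ^ 2 < m ∨
      (k ≤ n + 1 ∧ n * (n - 1) * (n + 1) < m) ∨
      (k ≤ n + 1 ∧ 131520 * n ^ 2 * (Nat.log 2 n + 1) ^ 2 < m))
    (A : Fin m → Fin n → Fin k) (hA : IsRowLatin A) :
    ∃ T : Fin (m - (n - 1)) → Finset (Fin m × Fin n),
      (∀ s, IsTransversal A (T s)) ∧ ∀ s s', s ≠ s' → Disjoint (T s) (T s') := by
  classical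
  rcases hm with h | h | ⟨hk, h⟩ | ⟨hk, h⟩
  · obtain ⟨t, h1, h2, h3⟩ :=
      Pool.Agent.Rl45.exact_number hn A (fun i j j' h => hA i j j' h) (Or.inl h)
    exact of_fun A t h1 h2 h3
  · rw [Nat.mul_assoc] at h
    obtain ⟨t, h1, h2, h3⟩ := Pool.Agent.FZ86.all_k hn h A (fun i j j' h => hA i j j' h)
    exact of_fun A t h1 h2 h3
  · obtain ⟨t, h1, h2, h3⟩ :=
      Pool.Agent.Rl45.exact_number hn A (fun i j j' h => hA i j j' h) (Or.inr ⟨hk, h⟩)
    exact of_fun A t h1 h2 h3
  · obtain ⟨t, h1, h2, h3⟩ := Pool.Agent.V3R.exact hn hk h A (fun i j j' h => hA i j j' h)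
    exact of_fun A t h1 h2 h3

end Pool.Agent.Results.MP_884cd1_co.CubicRows
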