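import Pool.Agent.Rr71.Main

/-!
MP_884cd1_co (disjoint transversals in row-Latin rectangles): for every `n` the question Q1, for
all `m ≥ 2 n - 1` and all `k`, is equivalent to its finitely many cases
`2 n - 1 ≤ m ≤ 3 n ^ 2 - 2`, `k = m n`; more generally for `m - d` transversals and `m ≥ m₁`.
-/

namespace Pool.Agent.Results.MP_884cd1_co.FiniteReduction

open Finset

/-- `A` is an `m × n` row-Latin rectangle based on `k`: an `m × n` matrix with entries among `k`
symbols in which no symbol occurs twice within the same row. -/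
def IsRowLatin {m n k : ℕ} (A : Fin m → Fin n → Fin k) : Prop :=
  ∀ i, ∀ j j', A i j = A i j' → j = j'

/-- `C` is a transversal of the `m × n` matrix `A`: a set of `n` cells, no two in the same row, no
two in the same column, no two with the same symbol. -/
def IsTransversal {m n k : ℕ} (A : Fin m → Fin n → Fin k) (C : Finset (Fin m × Fin n)) : Prop :=
  C.card = n ∧ (∀ c ∈ C, ∀ c' ∈ C, c.1 = c'.1 → c = c') ∧
    (∀ c ∈ C, ∀ c' ∈ C, c.2 = c'.2 → c = c') ∧
    (∀ c ∈ C, ∀ c' ∈ C, A c.1 c.2 = A c'.1 c'.2 → c = c')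

/-- Every `m × n` row-Latin rectangle based on `k` has `t` pairwise disjoint transversals. -/
def Always (m n k t : ℕ) : Prop :=
  ∀ A : Fin m → Fin n → Fin k, IsRowLatin A →
    ∃ T : Fin t → Finset (Fin m × Fin n),
      (∀ s, IsTransversal A (T s)) ∧ ∀ s s', s ≠ s' → Disjoint (T s) (T s')

theorem always_iff {m n k t : ℕ} : Always m n k t ↔
    ∀ A : Fin m → Fin n → Fin k, (∀ i, Function.Injective (A i)) → Rr71.HasDT A t := by
  classical
  constructor
  · intro h A hA
    obtain ⟨C, h1, h2⟩ := h A fun i j j' hjj => hA i hjj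
    have hex : ∀ (s : Fin t) (v : Fin n), ∃ r : Fin m, (r, v) ∈ C s := by
      intro s v
      obtain ⟨hc, _, hcol, _⟩ := h1 s
      have h6 : ((C s).image Prod.snd).card = n := by
        rw [card_image_of_injOn fun c hc c' hc' hcc => hcol c hc c' hc' hcc, hc]
      have h7 : (C s).image Prod.snd = Finset.univ := by
        rw [← card_eq_iff_eq_univ, h6, Fintype.card_fin]
      have h8 : v ∈ (C s).image Prod.snd := by
        rw [h7]
        exact mem_univ v
      obtain ⟨e, he, rfl⟩ := mem_image.1 h8
      exact ⟨e.1, he⟩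
    choose T hT using hex
    refine ⟨T, ?_, ?_, ?_⟩
    · intro s v v' hvv
      exact congrArg Prod.snd ((h1 s).2.1 _ (hT s v) _ (hT s v') hvv)
    · intro s v v' hvv
      exact congrArg Prod.snd ((h1 s).2.2.2 _ (hT s v) _ (hT s v') hvv)
    · intro v s s' hss
      by_contra hne
      have h3 := h2 s s' hne
      rw [disjoint_left] at h3
      have h4 : T s v = T s' v := hss
      exact h3 (hT s v) (h4 ▸ hT s' v)
  · intro h A hA
    obtain ⟨t', h1, h2, h3⟩ := h A fun i j j' hjj => hA i j j' hjj
    have hmem : ∀ s c, c ∈ (univ.image (fun j => (t' s j, j)) : Finset (Fin m × Fin n)) ↔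
        t' s c.2 = c.1 := by
      intro s c
      simp only [Finset.mem_image, Finset.mem_univ, true_and]
      constructor
      · rintro ⟨j, rfl⟩
        rfl
      · intro h
        exact ⟨c.2, Prod.ext h rfl⟩
    refine ⟨fun s => univ.image (fun j => (t' s j, j)), ?_, ?_⟩
    · intro s
      refine ⟨?_, ?_, ?_, ?_⟩
      · rw [Finset.card_image_of_injective _ (fun j j' h => congrArg Prod.snd h),
          Finset.card_univ, Fintype.card_fin]
      · intro c hc c' hc' h
        rw [hmem] at hc hc'
        exact Prod.ext h (h1 s (by rw [hc, hc', h]))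
      · intro c hc c' hc' h
        rw [hmem] at hc hc'
        exact Prod.ext (by rw [← hc, ← hc', h]) h
      · intro c hc c' hc' h
        rw [hmem] at hc hc'
        have h4 : c.2 = c'.2 := by
          apply h2 s
          change A (t' s c.2) c.2 = A (t' s c'.2) c'.2
          rw [hc, hc', h]
        exact Prod.ext (by rw [← hc, ← hc', h4]) h4
    · intro s s' hss'
      rw [Finset.disjoint_left]
      intro c hc hc'
      rw [hmem] at hc hc'
      apply hss'
      apply h3 c.2
      change t' s c.2 = t' s' c.2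
      rw [hc, hc']

/-- Let `n, m₁ ≥ 1` and `d` be natural numbers. For all `m ≥ m₁` and all `k`, every `m × n`
row-Latin rectangle based on `k` has `m - d` pairwise disjoint transversals, if and only if this
holds for the finitely many `m` with `m₁ ≤ m ≤ max m₁ (3 n ^ 2 - n - 1 + d)` and `k = m n`. (Q1 is
the case `m₁ = 2 n - 1`, `d = n - 1`; the range is then `2 n - 1 ≤ m ≤ 3 n ^ 2 - 2`.) -/
theorem result (n m₁ d : ℕ) (hn : 1 ≤ n) (hm₁ : 1 ≤ m₁) :
    (∀ m k, m₁ ≤ m → Always m n k (m - d)) ↔
      ∀ m, m₁ ≤ m → m ≤ max m₁ (3 * n ^ 2 - n - 1 + d) → Always m n (m * n) (m - d) := by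
  constructor
  · exact fun h m hm _ => h m _ hm
  · intro h m k hm
    have h0 : ∀ m, m₁ ≤ m → m ≤ max m₁ (3 * n ^ 2 - n - 1 + d) →
        ∀ A : Fin m → Fin n → Fin k, (∀ i, Function.Injective (A i)) →
          Rr71.HasDT A (m - d) := fun m h1 h2 A hA =>
      Rr71.relabel (by omega) hn (always_iff.1 (h m h1 h2)) A hA
    rw [always_iff]
    intro A hA
    rcases le_total m (max m₁ (3 * n ^ 2 - n - 1 + d)) with h1 | h1
    · exact h0 m hm h1 A hA
    · have h2 : 3 * n ^ 2 - n - 1 + d ≤ max m₁ (3 * n ^ 2 - n - 1 + d) := le_max_right _ _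
      exact Rr71.more_rows hn (by omega) (h0 _ (le_max_left _ _) (le_refl _)) h1 A hA

end Pool.Agent.Results.MP_884cd1_co.FiniteReduction
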