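import Pool.Agent.Drisko49.Weighted
import Pool.Agent.Drisko49.Rat

/-!
MP_884cd1_co (disjoint transversals in row-Latin rectangles): the fractional form of Q1 holds in
the full range `m ≥ 2 n - 1`, for all `k`: transversals can be taken with multiplicities, `q`
times as many as Q1 asks for, so that every cell is used at most `q` times.
-/

namespace Pool.Agent.Results.MP_884cd1_co.FractionalPacking

open Finset

/-- `A` is an `m × n` row-Latin rectangle based on `k`: an `m × n` matrix with entries among `k`
symbols in which no symbol occurs twice within the same row. -/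
def IsRowLatin {m n k : ℕ} (A : Fin m → Fin n → Fin k) : Prop :=
  ∀ i, ∀ j j', A i j = A i j' → j = j'

/-- `C` is a transversal of the `m × n` matrix `A`: a set of `n` cells, no two in the same row, no
two in the same column, no two with the same symbol. -/
def IsTransversal {m n k : ℕ} (A : Fin m → Fin n → Fin k) (C : Finset (Fin m × Fin n)) : Prop :=
  C.card = n ∧ (∀ c ∈ C, ∀ c' ∈ C, c.1 = c'.1 → c = c') ∧
    (∀ c ∈ C, ∀ c' ∈ C, c.2 = c'.2 → c = c') ∧
    (∀ c ∈ C, ∀ c' ∈ C, A c.1 c.2 = A c'.1 c'.2 → c = c')

/-- For `n ≥ 1` and all `m ≥ 2 n - 1` every `m × n` row-Latin rectangle based on `k` has a family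
of transversals with multiplicities `μ`, of total multiplicity `q * (m - (n - 1))`, such that
every cell lies in at most `q` of them (counted with multiplicity). For `q = 1` this would be
`m - (n - 1)` pairwise disjoint transversals. -/
theorem result (m n k : ℕ) (hn : 1 ≤ n) (hm : 2 * n - 1 ≤ m) (A : Fin m → Fin n → Fin k)
    (hA : IsRowLatin A) :
    ∃ (q : ℕ) (μ : Finset (Fin m × Fin n) → ℕ), 1 ≤ q ∧
      (∀ C, μ C ≠ 0 → IsTransversal A C) ∧
      (∀ c, ∑ C ∈ univ.filter (fun C => c ∈ C), μ C ≤ q) ∧
      ∑ C, μ C = q * (m - (n - 1)) := by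
  classical
  have : Nonempty (Fin n) := ⟨⟨0, hn⟩⟩
  have hinj : ∀ i, Function.Injective (A i) := fun i j j' h => hA i j j' h
  obtain ⟨x, hx0, hx1, hx2⟩ := Pool.Agent.Drisko49.exists_fractional A hinj
    (by rw [Fintype.card_fin, Fintype.card_fin]; omega)
  obtain ⟨q, ν, hq, hν1, hν2⟩ := Pool.Agent.Drisko49.exists_multiplicities
    (V := {r : Fin n → Fin m // Pool.Agent.Drisko49.Valid A r}) (Cell := Fin m × Fin n)
    (fun r c => r.1 c.2 = c.1) (m - (n - 1)) x hx0
    (fun c => by simpa using hx1 c.1 c.2)
    (by
      rw [hx2, Fintype.card_fin, Fintype.card_fin, Nat.cast_sub (by omega), Nat.cast_sub hn]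
      push_cast
      ring)
  let f : {r : Fin n → Fin m // Pool.Agent.Drisko49.Valid A r} → Finset (Fin m × Fin n) :=
    fun r => Finset.univ.image (fun j => (r.1 j, j))
  have hmem : ∀ r c, c ∈ f r ↔ r.1 c.2 = c.1 := by
    intro r c
    simp only [f, Finset.mem_image, Finset.mem_univ, true_and]
    constructor
    · rintro ⟨j, rfl⟩
      rfl
    · intro h
      exact ⟨c.2, Prod.ext h rfl⟩
  refine ⟨q, fun C => ∑ r ∈ univ.filter (fun r => f r = C), ν r, hq, ?_, ?_, ?_⟩
  · intro C hC
    obtain ⟨r, hr, -⟩ := Finset.exists_ne_zero_of_sum_ne_zero hC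
    rw [Finset.mem_filter] at hr
    obtain ⟨-, rfl⟩ := hr
    obtain ⟨h1, h2⟩ := r.2
    refine ⟨?_, ?_, ?_, ?_⟩
    · rw [Finset.card_image_of_injective, Finset.card_univ, Fintype.card_fin]
      intro j j' h
      exact congrArg Prod.snd h
    · intro c hc c' hc' h
      rw [hmem] at hc hc'
      rw [← hc, ← hc'] at h
      have h3 := h1 h
      refine Prod.ext ?_ h3
      rw [← hc, ← hc', h3]
    · intro c hc c' hc' h
      rw [hmem] at hc hc'
      refine Prod.ext ?_ h
      rw [← hc, ← hc', h]
    · intro c hc c' hc' h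
      rw [hmem] at hc hc'
      rw [← hc, ← hc'] at h
      have h3 := h2 h
      refine Prod.ext ?_ h3
      rw [← hc, ← hc', h3]
  · intro c
    have h1 : ∑ C ∈ univ.filter (fun C => c ∈ C), ∑ r ∈ univ.filter (fun r => f r = C), ν r
        = ∑ r, (if r.1 c.2 = c.1 then ν r else 0) := by
      rw [← Finset.sum_filter]
      have h2 : (univ.filter fun r : {r : Fin n → Fin m // Pool.Agent.Drisko49.Valid A r} =>
          r.1 c.2 = c.1) = univ.filter (fun r => c ∈ f r) := by
        ext r
        simp only [Finset.mem_filter, Finset.mem_univ, true_and, hmem]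
      rw [h2]
      rw [← Finset.sum_fiberwise_of_maps_to (s := univ.filter (fun r => c ∈ f r))
        (t := univ.filter (fun C => c ∈ C)) (g := f)]
      · refine Finset.sum_congr rfl fun C hC => ?_
        rw [Finset.mem_filter] at hC
        refine Finset.sum_congr ?_ fun _ _ => rfl
        ext r
        simp only [Finset.mem_filter, Finset.mem_univ, true_and]
        constructor
        · rintro rfl
          exact ⟨hC.2, rfl⟩
        · rintro ⟨-, h⟩
          exact h
      · intro r hr
        rw [Finset.mem_filter] at hr ⊢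
        exact ⟨Finset.mem_univ _, hr.2⟩
    rw [h1]
    exact hν1 c
  · rw [Finset.sum_fiberwise]
    exact hν2

end Pool.Agent.Results.MP_884cd1_co.FractionalPacking
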