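import Pool.Agent.AsympTrans.Final

/-!
MP_884cd1_co (disjoint transversals in row-Latin rectangles): for all `m`, `n ≥ 1` and `k` every
`m × n` row-Latin rectangle based on `k` has at least `m - min (n (n - 1), 131072 n (log₂ n + 1)²)`
pairwise disjoint transversals.
-/

namespace Pool.Agent.Results.MP_884cd1_co.UniformBound

open Finset

/-- `A` is an `m × n` row-Latin rectangle based on `k`: an `m × n` matrix with entries among `k`
symbols in which no symbol occurs twice within the same row. -/
def IsRowLatin {m n k : ℕ} (A : Fin m → Fin n → Fin k) : Prop :=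
  ∀ i, ∀ j j', A i j = A i j' → j = j'

/-- `C` is a transversal of the `m × n` matrix `A`: a set of `n` cells, no two in the same row, no
two in the same column, no two with the same symbol. -/
def IsTransversal {m n k : ℕ} (A : Fin m → Fin n → Fin k) (C : Finset (Fin m × Fin n)) : Prop :=
  C.card = n ∧ (∀ c ∈ C, ∀ c' ∈ C, c.1 = c'.1 → c = c') ∧
    (∀ c ∈ C, ∀ c' ∈ C, c.2 = c'.2 → c = c') ∧
    (∀ c ∈ C, ∀ c' ∈ C, A c.1 c.2 = A c'.1 c'.2 → c = c')

/-- Every `m × n` row-Latin rectangle based on `k` (`n ≥ 1`, all `m` and `k`) has a family of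
`m - min (n (n - 1), 131072 n (log₂ n + 1)²)` pairwise disjoint transversals (truncated subtraction;
`Nat.log 2 n` is the integer part of `log₂ n`). -/
theorem result (m n k : ℕ) (hn : 1 ≤ n) (A : Fin m → Fin n → Fin k) (hA : IsRowLatin A) :
    ∃ T : Fin (m - min (n * (n - 1)) (131072 * n * (Nat.log 2 n + 1) ^ 2)) → Finset (Fin m × Fin n),
      (∀ s, IsTransversal A (T s)) ∧ ∀ s s', s ≠ s' → Disjoint (T s) (T s') := by
  classical
  obtain ⟨t, h1, h2, h3⟩ := Pool.Agent.AsympTrans.final hn A (fun i j j' h => hA i j j' h)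
  have hmem : ∀ s c, c ∈ (univ.image (fun j => (t s j, j)) : Finset (Fin m × Fin n)) ↔
      t s c.2 = c.1 := by
    intro s c
    simp only [Finset.mem_image, Finset.mem_univ, true_and]
    constructor
    · rintro ⟨j, rfl⟩
      rfl
    · intro h
      exact ⟨c.2, Prod.ext h rfl⟩
  refine ⟨fun s => univ.image (fun j => (t s j, j)), ?_, ?_⟩
  · intro s
    refine ⟨?_, ?_, ?_, ?_⟩
    · rw [Finset.card_image_of_injective _ (fun j j' h => congrArg Prod.snd h), Finset.card_univ,
        Fintype.card_fin]
    · intro c hc c' hc' h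
      rw [hmem] at hc hc'
      exact Prod.ext h (h1 s (by rw [hc, hc', h]))
    · intro c hc c' hc' h
      rw [hmem] at hc hc'
      exact Prod.ext (by rw [← hc, ← hc', h]) h
    · intro c hc c' hc' h
      rw [hmem] at hc hc'
      have h4 : c.2 = c'.2 := by
        apply h2 s
        change A (t s c.2) c.2 = A (t s c'.2) c'.2
        rw [hc, hc', h]
      exact Prod.ext (by rw [← hc, ← hc', h4]) h4
  · intro s s' hss'
    rw [Finset.disjoint_left]
    intro c hc hc'
    rw [hmem] at hc hc'
    apply hss'
    apply h3 c.2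
    change t s c.2 = t s' c.2
    rw [hc, hc']

end Pool.Agent.Results.MP_884cd1_co.UniformBound
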